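import Pool.Agent.helper42.WB.LDefs

/-!
Part L5: the ring generated by a subgroup of index `n` of the reflection group `Wg` contains
`m M_5(ℤ)` with `m` polynomial in `n`.
-/

set_option autoImplicit false
open Matrix

namespace Pool.Agent.helper21.WB

namespace L5

/-! ### the ring spanned by a group of matrices -/

/-- the additive group spanned by the elements of `H` -/
def RH (H : Subgroup GLI) : AddSubgroup Mat := AddSubgroup.closure {A : Mat | ∃ h ∈ H, A = h.val}

theorem mem_RH_of_mem {H : Subgroup GLI} {h : GLI} (hh : h ∈ H) : h.val ∈ RH H :=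
  AddSubgroup.subset_closure ⟨h, hh, rfl⟩

theorem one_mem_RH (H : Subgroup GLI) : (1 : Mat) ∈ RH H := mem_RH_of_mem H.one_mem

theorem mul_mem_RH {H : Subgroup GLI} {A B : Mat} (hA : A ∈ RH H) (hB : B ∈ RH H) :
    A * B ∈ RH H := by
  induction hA using AddSubgroup.closure_induction with
  | mem A hA =>
    obtain ⟨a, ha, rfl⟩ := hA
    induction hB using AddSubgroup.closure_induction with
    | mem B hB =>
      obtain ⟨b, hb, rfl⟩ := hB
      exact mem_RH_of_mem (H.mul_mem ha hb)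
    | zero => rw [mul_zero]; exact AddSubgroup.zero_mem _
    | add x y _ _ hx hy => rw [mul_add]; exact AddSubgroup.add_mem _ hx hy
    | neg x _ hx => rw [mul_neg]; exact AddSubgroup.neg_mem _ hx
  | zero => rw [zero_mul]; exact AddSubgroup.zero_mem _
  | add x y _ _ hx hy => rw [add_mul]; exact AddSubgroup.add_mem _ hx hy
  | neg x _ hx => rw [neg_mul]; exact AddSubgroup.neg_mem _ hx

/-- integral multiples stay in the ring -/
theorem smul_mem_RH {H : Subgroup GLI} {A : Mat} (hA : A ∈ RH H) (z : ℤ) :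
    (z : ℝ) • A ∈ RH H := by
  have h : (z : ℝ) • A = z • A := by
    ext i j; simp
  rw [h]
  exact AddSubgroup.zsmul_mem _ hA z

/-! ### the five cusps -/

def pa : Fin 5 → Fin 10 := ![1, 0, 0, 0, 4]
def pb : Fin 5 → Fin 10 := ![4, 4, 5, 6, 9]

/-- the null vectors -/
noncomputable def xi (p : Fin 5) : I → ℝ := nr (pa p) + nr (pb p)

theorem gr_pair (p : Fin 5) : gr (pa p) (pb p) = -1 := by revert p; decide

theorem bl_xi (p q : Fin 5) : bl (xi p) (xi q) = if p = q then 0 else -1 := by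
  have h : gr (pa p) (pa q) + gr (pa p) (pb q) + (gr (pb p) (pa q) + gr (pb p) (pb q))
      = if p = q then 0 else -1 := by revert p q; decide
  have h' := congrArg (fun z : ℤ => (z : ℝ)) h
  simp only [Int.cast_add] at h'
  unfold xi
  rw [bl_add_left, bl_add_right, bl_add_right, bl_nr, bl_nr, bl_nr, bl_nr, h']
  split_ifs <;> simp

/-- the rank one matrices `ξ_p (J ξ_q)^T` -/
noncomputable def E (p q : Fin 5) : Mat := Matrix.vecMulVec (xi p) (J *ᵥ xi q)

theorem E_mulVec (p q : Fin 5) (v : I → ℝ) : E p q *ᵥ v = bl (xi q) v • xi p := by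
  unfold E
  rw [Matrix.vecMulVec_mulVec]
  have : J *ᵥ xi q ⬝ᵥ v = bl (xi q) v := by
    rw [bl_comm]; unfold bl; rw [dotProduct_comm]
  rw [this]
  ext i
  simp
  ring

theorem E_mul (p q r s : Fin 5) : E p q * E r s = bl (xi q) (xi r) • E p s := by
  apply mat_ext
  intro v
  rw [← Matrix.mulVec_mulVec, E_mulVec, E_mulVec, Matrix.smul_mulVec, E_mulVec, bl_smul_right]
  ext i
  simp
  ring

/-- the parabolic element -/
noncomputable def up (p : Fin 5) : GLI := rf (pa p) * rf (pb p)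

noncomputable def NN (p : Fin 5) : Mat := (up p).val - 1

theorem up_val (p : Fin 5) : (up p).val = 1 + NN p := by unfold NN; abel

theorem NN_mulVec (p : Fin 5) (v : I → ℝ) : NN p *ᵥ v =
    - (2 * bl (nr (pa p)) v + 4 * bl (nr (pb p)) v) • nr (pa p)
      - (2 * bl (nr (pb p)) v) • nr (pb p) := by
  have h : (up p).val = rfM (pa p) * rfM (pb p) := rfl
  have hg : bl (nr (pa p)) (nr (pb p)) = -1 := by rw [bl_nr, gr_pair]; simp
  unfold NN
  rw [Matrix.sub_mulVec, Matrix.one_mulVec, h, ← Matrix.mulVec_mulVec, rfM_mulVec, rfM_mulVec,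
    bl_sub_right, bl_smul_right, hg]
  ext i
  simp
  ring

theorem bl_pa_pb (p : Fin 5) : bl (nr (pa p)) (nr (pb p)) = -1 := by rw [bl_nr, gr_pair]; simp

theorem bl_pb_pa (p : Fin 5) : bl (nr (pb p)) (nr (pa p)) = -1 := by rw [bl_comm, bl_pa_pb]

theorem bl_nr_self (a : Fin 10) : bl (nr a) (nr a) = 1 := by rw [bl_nr, gr_self]; simp

theorem NN_xi (p : Fin 5) : NN p *ᵥ xi p = 0 := by
  rw [NN_mulVec]
  unfold xi
  rw [bl_add_right, bl_add_right, bl_nr_self, bl_nr_self, bl_pa_pb, bl_pb_pa]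
  ext i
  simp

theorem NN_sq (p : Fin 5) : NN p * NN p = (-4 : ℝ) • E p p := by
  apply mat_ext
  intro v
  rw [← Matrix.mulVec_mulVec, Matrix.smul_mulVec, E_mulVec, NN_mulVec p (NN p *ᵥ v), NN_mulVec p v]
  simp only [bl_sub_right, bl_smul_right, bl_nr_self, bl_pa_pb, bl_pb_pa, xi, bl_add_left]
  ext i
  simp
  ring

theorem NN_cube (p : Fin 5) : NN p * (NN p * NN p) = 0 := by
  apply mat_ext
  intro v
  rw [NN_sq, ← Matrix.mulVec_mulVec, Matrix.smul_mulVec, E_mulVec, Matrix.mulVec_smul,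
    Matrix.mulVec_smul, NN_xi]
  simp

theorem NN_cube' (p : Fin 5) : (NN p * NN p) * NN p = 0 := by rw [mul_assoc, NN_cube]

theorem up_pow (p : Fin 5) (k : ℕ) : ∃ c : ℝ, ((up p) ^ k : GLI).val =
    1 + (k : ℝ) • NN p + c • (NN p * NN p) := by
  induction k with
  | zero => exact ⟨0, by simp⟩
  | succ k ih =>
    obtain ⟨c, hc⟩ := ih
    refine ⟨c + k, ?_⟩
    rw [pow_succ, Units.val_mul, hc, up_val, mul_add, mul_one, add_mul, add_mul, one_mul,
      Matrix.smul_mul, Matrix.smul_mul, NN_cube', smul_zero]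
    push_cast
    rw [add_smul, add_smul, one_smul]
    abel

theorem up_pow_sq (p : Fin 5) (k : ℕ) :
    (((up p) ^ k : GLI).val - 1) * (((up p) ^ k : GLI).val - 1) = (-4 * (k:ℝ) ^ 2) • E p p := by
  obtain ⟨c, hc⟩ := up_pow p k
  have h : ((up p) ^ k : GLI).val - 1 = (k : ℝ) • NN p + c • (NN p * NN p) := by
    rw [hc]; abel
  rw [h, add_mul, mul_add, mul_add]
  simp only [Matrix.smul_mul, Matrix.mul_smul]
  rw [NN_cube, NN_cube', show NN p * NN p * (NN p * NN p) = NN p * (NN p * (NN p * NN p)) by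
    simp only [mul_assoc], NN_cube, mul_zero, NN_sq]
  simp only [smul_zero, add_zero, smul_smul]
  congr 1
  ring

theorem up_mem (p : Fin 5) : up p ∈ Wg := by
  refine ⟨csC.simple (pa p) * csC.simple (pb p), ?_⟩
  rw [map_mul, rep_simple, rep_simple]
  rfl

/-- one rank one element for each cusp -/
theorem exists_E (n : ℕ) (hn : 1 ≤ n) (H : Subgroup GLI) (hH : H.relIndex Wg = n) (p : Fin 5) :
    ∃ k : ℕ, 1 ≤ k ∧ k ≤ n ∧ (4 * (k:ℝ) ^ 2) • E p p ∈ RH H := by
  obtain ⟨k, hk0, hkn, hk⟩ := Subgroup.exists_pow_mem_of_relIndex_ne_zero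
    (H := H) (K := Wg) (by rw [hH]; omega) (up_mem p)
  refine ⟨k, hk0, by rw [← hH]; exact hkn, ?_⟩
  have h1 : ((up p) ^ k : GLI).val - 1 ∈ RH H :=
    AddSubgroup.sub_mem _ (mem_RH_of_mem (Subgroup.mem_inf.1 hk).1) (one_mem_RH H)
  have h2 := AddSubgroup.neg_mem _ (mul_mem_RH h1 h1)
  rw [up_pow_sq, ← neg_smul] at h2
  convert h2 using 2
  ring

/-! ### the matrix units -/

/-- integral null vectors -/
def xiZ (p : Fin 5) (i : I) : ℤ := nv (pa p) i + nv (pb p) i

theorem xi_apply (p : Fin 5) (i : I) : xi p i = (xiZ p i : ℝ) := by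
  unfold xi xiZ nr
  simp

/-- coefficients: `2 e_i = ∑ c_{ip} ξ_p` -/
def cZ : I → Fin 5 → ℤ :=
  Sum.elim (fun i => ![![-1,1,1,1,-1], ![1,-1,1,1,-1], ![1,1,-1,1,-1], ![1,1,1,-1,-1]] i)
    (fun _ => ![-1,-1,-1,-1,1])

theorem cZ_spec (i j : I) : ∑ p, cZ i p * xiZ p j = if i = j then 2 else 0 := by
  revert i j
  decide

/-- the sign of `J` -/
def sg (i : I) : ℤ := if i = o then -1 else 1

theorem J_mulVec (v : I → ℝ) (i : I) : (J *ᵥ v) i = (sg i : ℝ) * v i := by
  have hJs : J = Matrix.diagonal (fun i => (if i = o then -1 else 1 : ℝ)) := by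
    ext i j
    rw [Matrix.diagonal_apply]
    rcases i with i | i <;> rcases j with j | j <;> simp [J, Matrix.one_apply, o]
  rw [hJs, Matrix.mulVec_diagonal]
  unfold sg
  split_ifs <;> simp

theorem single_eq (i j : I) : (4:ℝ) • Matrix.single i j (1:ℝ) =
    ∑ p, ∑ q, ((sg j * (cZ i p * cZ j q) : ℤ) : ℝ) • E p q := by
  ext a b
  have ha := congrArg (fun z : ℤ => (z : ℝ)) (cZ_spec i a)
  have hb := congrArg (fun z : ℤ => (z : ℝ)) (cZ_spec j b)
  simp only [Int.cast_sum, Int.cast_mul] at ha hb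
  have hE : ∀ p q, E p q a b = (xiZ p a : ℝ) * ((sg b : ℝ) * (xiZ q b : ℝ)) := by
    intro p q
    unfold E
    rw [Matrix.vecMulVec_apply, J_mulVec, xi_apply, xi_apply]
  have hsum : (∑ p, ∑ q, ((sg j * (cZ i p * cZ j q) : ℤ) : ℝ) • E p q) a b =
      (sg j : ℝ) * (sg b : ℝ) * ((∑ p, (cZ i p : ℝ) * (xiZ p a : ℝ)) *
        (∑ q, (cZ j q : ℝ) * (xiZ q b : ℝ))) := by
    rw [Finset.sum_mul_sum, Finset.mul_sum, Matrix.sum_apply]
    refine Finset.sum_congr rfl (fun p _ => ?_)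
    rw [Matrix.sum_apply, Finset.mul_sum]
    refine Finset.sum_congr rfl (fun q _ => ?_)
    rw [Matrix.smul_apply, hE, smul_eq_mul]
    push_cast
    ring
  rw [hsum, ha, hb, Matrix.smul_apply, Matrix.single_apply, smul_eq_mul]
  by_cases h1 : i = a
  · by_cases h2 : j = b
    · subst h1 h2
      have hs : (sg j : ℝ) * (sg j : ℝ) = 1 := by
        unfold sg; split_ifs <;> simp
      simp [hs]
      norm_num
    · simp [h1, h2]
  · simp [h1]

end L5

open L5

theorem exists_mult : ∃ C k : ℕ, ∀ n : ℕ, 1 ≤ n → ∀ H : Subgroup GLI, H ≤ Wg →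
    H.relIndex Wg = n → ∃ m : ℕ, 1 ≤ m ∧ m ≤ C * n ^ k ∧
      ∀ i j : I, (m : ℝ) • Matrix.single i j (1 : ℝ) ∈
        AddSubgroup.closure {A : Mat | ∃ h ∈ H, A = h.val} := by
  refine ⟨64, 20, fun n hn H _ hH => ?_⟩
  choose k hk1 hkn hkE using exists_E n hn H hH
  have hKpos : ∀ p, 0 < k p ^ 4 := fun p => pow_pos (hk1 p) 4
  set K : ℕ := ∏ p, k p ^ 4 with hK
  have hK1 : 1 ≤ K := Finset.prod_pos (fun p _ => hKpos p)
  have hKn : K ≤ n ^ 20 := by
    calc K ≤ ∏ _p : Fin 5, n ^ 4 :=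
          Finset.prod_le_prod' (fun p _ => Nat.pow_le_pow_left (hkn p) 4)
      _ = n ^ 20 := by rw [Finset.prod_const, Finset.card_univ, Fintype.card_fin, ← pow_mul]
  have hdiv : ∀ p q, k p ^ 2 * k q ^ 2 ∣ K := by
    intro p q
    by_cases hpq : p = q
    · subst hpq
      rw [← pow_add]
      exact Finset.dvd_prod_of_mem (fun p => k p ^ 4) (Finset.mem_univ p)
    · have h1 : k p ^ 4 * k q ^ 4 ∣ K := by
        have h2 : ∏ r ∈ ({p, q} : Finset (Fin 5)), k r ^ 4 ∣ K :=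
          Finset.prod_dvd_prod_of_subset _ _ _ (Finset.subset_univ _)
        rwa [Finset.prod_pair hpq] at h2
      exact (mul_dvd_mul (pow_dvd_pow _ (by norm_num)) (pow_dvd_pow _ (by norm_num))).trans h1
  have hEpq : ∀ p q, (16 * (K:ℝ)) • E p q ∈ RH H := by
    intro p q
    obtain ⟨t, ht⟩ := hdiv p q
    by_cases hpq : p = q
    · subst hpq
      have h1 := smul_mem_RH (hkE p) (4 * (k p : ℤ) ^ 2 * t)
      rw [smul_smul] at h1
      convert h1 using 2
      rw [ht]
      push_cast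
      ring
    · have h1 := smul_mem_RH (mul_mem_RH (hkE p) (hkE q)) (- (t : ℤ))
      rw [Matrix.smul_mul, Matrix.mul_smul, E_mul, bl_xi, if_neg hpq, smul_smul, smul_smul,
        smul_smul] at h1
      convert h1 using 2
      rw [ht]
      push_cast
      ring
  refine ⟨64 * K, by omega, Nat.mul_le_mul_left 64 hKn, fun i j => ?_⟩
  have h1 : ((64 * K : ℕ) : ℝ) • Matrix.single i j (1:ℝ) =
      ∑ p, ∑ q, ((sg j * (cZ i p * cZ j q) : ℤ) : ℝ) • ((16 * (K:ℝ)) • E p q) := by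
    have h2 : ((64 * K : ℕ) : ℝ) • Matrix.single i j (1:ℝ) =
        (16 * (K:ℝ)) • ((4:ℝ) • Matrix.single i j (1:ℝ)) := by
      rw [smul_smul]; congr 1; push_cast; ring
    rw [h2, single_eq, Finset.smul_sum]
    refine Finset.sum_congr rfl (fun p _ => ?_)
    rw [Finset.smul_sum]
    refine Finset.sum_congr rfl (fun q _ => ?_)
    rw [smul_comm]
  rw [h1]
  exact AddSubgroup.sum_mem _ (fun p _ => AddSubgroup.sum_mem _ (fun q _ =>
    smul_mem_RH (hEpq p q) _))

end Pool.Agent.helper21.WB
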